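import Pool.Agent.Helper34.BM.Hor

/-!
# The commutant: `S_Comm`
-/

set_option autoImplicit false

open Polynomial Matrix Finset
open Pool.Agent.Helper62.BM

namespace Pool.Agent.Helper34.BM

variable {C : Type} [Field C]

/-- Matrices all of whose powers have bounded degree are algebraic over the constants. -/
theorem exists_rel {n : ℕ} (y : Matrix (Fin n) (Fin n) C[X]) (g : ℕ)
    (h : ∀ k i j, ((y ^ k) i j).natDegree ≤ g) : ∃ P : C[X], P ≠ 0 ∧ aeval y P = 0 := by
  classical
  let L : C[X] →ₗ[C] (Fin n → Fin n → Fin (g + 1) → C) :=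
    { toFun := fun P i j k => ((aeval y P) i j).coeff k
      map_add' := by
        intro P Q
        ext i j k
        simp
      map_smul' := by
        intro c P
        ext i j k
        simp }
  have hdeg : ∀ P : C[X], ∀ i j, ((aeval y P) i j).natDegree ≤ g := by
    intro P i j
    rw [aeval_eq_sum_range, Matrix.sum_apply]
    refine natDegree_sum_le_of_forall_le _ _ fun k _ => ?_
    rw [Matrix.smul_apply]
    exact (natDegree_smul_le _ _).trans (h k i j)
  have hL : ∀ P : C[X], L P = 0 → aeval y P = 0 := by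
    intro P hP
    ext i j k
    rcases Nat.lt_or_ge k (g + 1) with hk | hk
    · exact congrFun (congrFun (congrFun hP i) j) ⟨k, hk⟩
    · rw [coeff_eq_zero_of_natDegree_lt (lt_of_le_of_lt (hdeg P i j) (by omega))]
      simp
  by_contra hcon
  push Not at hcon
  have hinj : Function.Injective L := by
    rw [injective_iff_map_eq_zero]
    intro P hP
    by_contra hP0
    exact hcon P hP0 (hL P hP)
  exact Polynomial.not_finite (R := C) (Module.Finite.of_injective L hinj)

/-- Rational functions algebraic over the constants are constant. -/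
theorem alg_const {P : C[X]} (hP : P ≠ 0) {μ : KX C}
    (h : ∑ k ∈ range (P.natDegree + 1), ι C (Polynomial.C (P.coeff k)) * μ ^ k = 0) :
    ∃ c : C, μ = ι C (Polynomial.C c) := by
  have h1 : eval₂ ((ι C).comp Polynomial.C) μ P = 0 := by
    rw [eval₂_eq_sum_range]
    exact h
  set P' : C[X] := Polynomial.C (P.leadingCoeff⁻¹) * P with hP'
  have hmon : P'.Monic := by
    rw [hP', Monic, leadingCoeff_mul, leadingCoeff_C, inv_mul_cancel₀ (leadingCoeff_ne_zero.2 hP)]
  have h2 : eval₂ ((ι C).comp Polynomial.C) μ P' = 0 := by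
    rw [hP', eval₂_mul, h1, mul_zero]
  have h3 : IsIntegral C[X] μ := by
    refine ⟨P'.map Polynomial.C, hmon.map _, ?_⟩
    rw [eval₂_map]
    exact h2
  obtain ⟨q, hq⟩ := IsIntegrallyClosed.isIntegral_iff.1 h3
  have hq' : ι C q = μ := hq
  rw [← hq'] at h2
  have h4 : ι C (P'.comp q) = 0 := by
    rw [← h2, Polynomial.comp, hom_eval₂]
  have h5 := ι_eq_zero.1 h4
  rcases comp_eq_zero_iff.1 h5 with h6 | h6
  · exact absurd h6 hmon.ne_zero
  · exact ⟨q.coeff 0, by rw [← hq', ← h6.2]⟩

theorem pow_mulVec_eig {n : ℕ} {F : Type} [Field F] {y : Matrix (Fin n) (Fin n) F} {z : Fin n → F}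
    {μ : F} (h : y *ᵥ z = μ • z) (k : ℕ) : (y ^ k) *ᵥ z = μ ^ k • z := by
  induction k with
  | zero => simp
  | succ k ih => rw [pow_succ, ← Matrix.mulVec_mulVec, h, Matrix.mulVec_smul, ih, smul_smul,
      pow_succ, mul_comm]

/-- The eigenvalue on the image of the `p`-curvature is a constant. -/
theorem eig_const {n : ℕ} {y : Matrix (Fin n) (Fin n) C[X]} {P : C[X]} (hP : P ≠ 0)
    (hy : aeval y P = 0) {z : Fin n → KX C} (hz : z ≠ 0) {μ : KX C}
    (h : y.map (ι C) *ᵥ z = μ • z) : ∃ c : C, μ = ι C (Polynomial.C c) := by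
  refine alg_const hP ?_
  have h1 : ∑ k ∈ range (P.natDegree + 1),
      ι C (Polynomial.C (P.coeff k)) • (y.map (ι C)) ^ k = 0 := by
    rw [aeval_eq_sum_range] at hy
    have h2 := congrArg (fun M : Matrix (Fin n) (Fin n) C[X] => (ι C).mapMatrix M) hy
    simp only [map_sum, map_zero] at h2
    rw [← h2]
    refine Finset.sum_congr rfl fun k _ => ?_
    have h3 : (P.coeff k) • y ^ k = (Polynomial.C (P.coeff k)) • y ^ k := by
      ext1 i j
      rw [Matrix.smul_apply, Matrix.smul_apply, smul_eq_mul, Polynomial.smul_eq_C_mul]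
    rw [h3]
    have h4 : (ι C).mapMatrix (Polynomial.C (P.coeff k) • y ^ k) =
        ι C (Polynomial.C (P.coeff k)) • (ι C).mapMatrix (y ^ k) := by
      ext1 i j
      simp only [RingHom.mapMatrix_apply, Matrix.map_apply, Matrix.smul_apply, smul_eq_mul,
        map_mul]
    rw [h4, map_pow]
    rfl
  have h5 := congrArg (fun M : Matrix (Fin n) (Fin n) (KX C) => M *ᵥ z) h1
  simp only [Matrix.sum_mulVec, Matrix.smul_mulVec, Matrix.zero_mulVec] at h5
  rw [Finset.sum_congr rfl fun k _ => by rw [pow_mulVec_eig h k, smul_smul],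
    ← Finset.sum_smul] at h5
  rcases smul_eq_zero.1 h5 with h6 | h6
  · exact h6
  · exact absurd h6 hz

/-- The bivector as a matrix of polynomials. -/
noncomputable def Qp {n : ℕ} (a : Fin n → C) : Matrix (Fin n) (Fin n) C[X] :=
  Matrix.of fun i j => if i = j then 0 else
    Polynomial.C ((2 * (a i - a j))⁻¹) * ((Polynomial.C (a i) - X) * Polynomial.C (wt a j) +
      (Polynomial.C (a j) - X) * Polynomial.C (wt a i))

theorem ιC_inv (c : C) : ι C (Polynomial.C c⁻¹) = (ι C (Polynomial.C c))⁻¹ := by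
  have h3 : ∀ c : C, ι C (Polynomial.C c) = ((ι C).comp Polynomial.C) c := fun c => rfl
  rw [h3, map_inv₀, ← h3]

theorem wt_map {n : ℕ} (a : Fin n → C) (j : Fin n) :
    wt (aX a) j = ι C (Polynomial.C (wt a j)) := by
  unfold wt
  rw [map_prod, map_prod]
  refine Finset.prod_congr rfl fun m _ => ?_
  rw [ιC_inv, Polynomial.C_sub, map_sub]

theorem Qp_map {n : ℕ} (a : Fin n → C) : (Qp a).map (ι C) = Qb (tX C) (aX a) := by
  ext1 i j
  simp only [Qp, Qb, Matrix.map_apply, Matrix.of_apply]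
  by_cases h : i = j
  · simp [h]
  · rw [if_neg h, if_neg h, wt_map, wt_map, map_mul, ιC_inv, div_eq_mul_inv, mul_comm]
    simp only [map_add, map_mul, map_sub, map_ofNat]

theorem Qp_deg {n : ℕ} (a : Fin n → C) (i j : Fin n) : (Qp a i j).natDegree ≤ 1 := by
  simp only [Qp, Matrix.of_apply]
  split_ifs
  · simp
  · compute_degree

theorem aX_inj {n : ℕ} {a : Fin n → C} (ha : Function.Injective a) :
    Function.Injective (aX a) := by
  intro i j h
  exact ha (Polynomial.C_injective (ι_inj h))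

theorem Qb_det (hEQ : S_EQ) (hQx : S_QxDet) {p : ℕ} [Fact p.Prime] [CharP C p] {g : ℕ}
    {a : Fin (2 * g) → C} (ha : Function.Injective a) (hg : 1 ≤ g) (hp : 2 * g < p)
    (hp2 : 2 < p) : (Qb (tX C) (aX a)).det ≠ 0 := by
  have h2 : (2 : KX C) ≠ 0 := by
    have := cast_ne (C := KX C) (p := p) (k := 2) (by omega) (by omega)
    simpa using this
  have h := hEQ (KX C) h2 (2 * g) (tX C) (aX a) (aX_inj ha)
  have h3 := (hQx (KX C) g (fun m h1 h2 => cast_ne (C := KX C) (p := p) (by omega) (by omega))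
    (tX C) (aX a) hg).1
  intro h4
  apply h3
  rw [← h, Matrix.det_mul, Matrix.det_mul, h4]
  ring

/-- The `p`-curvature is skew. -/
theorem skew (H : Hyps) (hQ : S_QbHor) {p : ℕ} [Fact p.Prime] [CharP C p]
    {D : Der (KX C)} (hD : IsDer D) {n : ℕ} {a : Fin n → C}
    (ha : Function.Injective a) (hp2 : 2 < p) :
    pcv D (Bm (tX C) (aX a)) p * Qb (tX C) (aX a) +
      Qb (tX C) (aX a) * (pcv D (Bm (tX C) (aX a)) p)ᵀ = 0 := by
  have hdp := fun c => dp (C := C) H.frac (p := p) hD c
  have h2 : (2 : KX C) ≠ 0 := by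
    have := cast_ne (C := KX C) (p := p) (k := 2) (by omega) (by omega)
    simpa using this
  have h1 := H.pcvT (KX C) p (mkD D (D_add D) (D_mul D)) hdp (Fin n) (Fin n)
    (Bm (tX C) (aX a)) (Bm (tX C) (aX a)) (Qb (tX C) (aX a))
  have hx : D (tX C) = 1 := by
    rw [tX, hD]; simp
  have haD : ∀ j, D (aX a j) = 0 := by
    intro j
    rw [hD]; simp
  have h3 := hQ (KX C) (mkD D (D_add D) (D_mul D)) h2 n (tX C) (aX a) hx haD (aX_inj ha)
  have hz : ∀ k, (fun M : Matrix (Fin n) (Fin n) (KX C) => Matrix.of fun i j => D (M i j) +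
      (Bm (tX C) (aX a) * M + M * (Bm (tX C) (aX a))ᵀ) i j)^[k] 0 = 0 := by
    intro k
    induction k with
    | zero => rfl
    | succ k ih =>
      rw [Function.iterate_succ_apply]
      have : (Matrix.of fun i j => D ((0 : Matrix (Fin n) (Fin n) (KX C)) i j) +
        (Bm (tX C) (aX a) * (0 : Matrix (Fin n) (Fin n) (KX C)) +
          (0 : Matrix (Fin n) (Fin n) (KX C)) * (Bm (tX C) (aX a))ᵀ) i j) =
          (0 : Matrix (Fin n) (Fin n) (KX C)) := by
        ext i j
        simp
      rw [this, ih]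
  simp only [mkD_coe] at h1 h3
  rw [← h1]
  obtain ⟨q, rfl⟩ : ∃ q, p = q + 1 := ⟨p - 1, by omega⟩
  rw [Function.iterate_succ_apply]
  have h4 : (Matrix.of fun i j => D (Qb (tX C) (aX a) i j) +
      (Bm (tX C) (aX a) * Qb (tX C) (aX a) + Qb (tX C) (aX a) * (Bm (tX C) (aX a))ᵀ) i j) =
        (0 : Matrix (Fin n) (Fin n) (KX C)) := by
    ext i j
    exact h3 i j
  rw [h4, hz]

/-- Horizontal matrices of small degree are scalar. -/
theorem hor_scalar (H : Hyps) (hRank : S_Rank) (hQ : S_QbHor) (hEQ : S_EQ) (hQx : S_QxDet)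
    {p : ℕ} [Fact p.Prime] [CharP C p]
    {D : Der (KX C)} (hD : IsDer D) {g : ℕ} {a : Fin (2 * g) → C}
    (ha : Function.Injective a) (hg : 1 ≤ g) (y : Matrix (Fin (2 * g)) (Fin (2 * g)) C[X])
    (hy : Tm D (Bm (tX C) (aX a)) (y.map (ι C)) = 0) (m : ℕ)
    (hd : ∀ i j, (y i j).natDegree ≤ m) (hp : 2 * m + 2 * g < p) (hp' : 6 * g + 4 < p) :
    ∃ c : C, y = Matrix.diagonal fun _ => Polynomial.C c := by
  have hLI := li H.pcv H.res H.frac
  have hdp := fun c => dp (C := C) H.frac (p := p) hD c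
  have hd' := hor_deg H hD ha y hy m hd hp
  obtain ⟨P, hP0, hP⟩ := exists_rel y g (fun k => (hor_pow H hD ha y hy hd' (by omega) k).2)
  have hx : D (tX C) = 1 := by
    rw [tX, hD]; simp
  have haD : ∀ j, D (aX a j) = 0 := by
    intro j
    rw [hD]; simp
  obtain ⟨z, l, hzl⟩ := hRank (KX C) p (mkD D (D_add D) (D_mul D)) (by omega) hdp (2 * g) (tX C)
    (aX a) hx haD (aX_inj ha)
  simp only [mkD_coe] at hzl
  -- the curvature is not zero
  have hψ : pcv D (Bm (tX C) (aX a)) p ≠ 0 := by
    intro h0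
    have h1 := hLI C p D hD (2 * g) a ha (by omega) 0 (Pi.single ⟨0, by omega⟩ 1)
      (fun i => by
        by_cases hi : i = ⟨0, by omega⟩
        · subst hi; simp
        · rw [Pi.single_eq_of_ne hi]; simp) (by omega) (by rw [h0, Matrix.zero_mulVec])
    have h2 := congrFun h1 ⟨0, by omega⟩
    simp at h2
  have hz : z ≠ 0 := by
    rintro rfl
    apply hψ
    rw [hzl]
    simp
  have hl : l ≠ 0 := by
    rintro rfl
    apply hψ
    rw [hzl]
    simp
  -- commutation
  have hcomm : y.map (ι C) * pcv D (Bm (tX C) (aX a)) p =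
      pcv D (Bm (tX C) (aX a)) p * y.map (ι C) := by
    have h1 := Tm_iter H.pcvT H.pcvD H.frac (p := p) hD (Bm (tX C) (aX a)) (y.map (ι C))
    have h2 : (Tm D (Bm (tX C) (aX a)))^[p] (y.map (ι C)) = 0 := by
      obtain ⟨q, rfl⟩ : ∃ q, p = q + 1 := ⟨p - 1, by omega⟩
      rw [Function.iterate_succ_apply, hy, Tm_iter_zero]
    rw [h2] at h1
    exact (sub_eq_zero.1 h1.symm).symm
  obtain ⟨j0, hj0⟩ := Function.ne_iff.1 hl
  simp only [Pi.zero_apply] at hj0
  have heig : y.map (ι C) *ᵥ z = ((l ᵥ* y.map (ι C)) j0 / l j0) • z := by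
    rw [hzl, Matrix.mul_vecMulVec, Matrix.vecMulVec_mul] at hcomm
    ext i
    have h3 := congrFun (congrFun hcomm i) j0
    simp only [Matrix.vecMulVec_apply] at h3
    rw [Pi.smul_apply, smul_eq_mul, div_mul_eq_mul_div, eq_div_iff hj0, h3, mul_comm]
  obtain ⟨c, hc⟩ := eig_const hP0 hP hz heig
  rw [hc] at heig
  refine ⟨c, ?_⟩
  -- the difference
  set r : Matrix (Fin (2 * g)) (Fin (2 * g)) C[X] := y - Matrix.diagonal fun _ => Polynomial.C c
    with hr
  have hrz : r.map (ι C) *ᵥ z = 0 := by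
    have h1 : r.map (ι C) = y.map (ι C) - Matrix.diagonal fun _ => ι C (Polynomial.C c) := by
      rw [hr]
      ext i j
      simp only [Matrix.map_apply, Matrix.sub_apply, map_sub, Matrix.diagonal_apply]
      split_ifs <;> simp
    rw [h1, Matrix.sub_mulVec, heig, sub_eq_zero]
    ext i
    rw [Matrix.mulVec_diagonal, Pi.smul_apply, smul_eq_mul]
  have hrψ : r.map (ι C) * pcv D (Bm (tX C) (aX a)) p = 0 := by
    rw [hzl, Matrix.mul_vecMulVec, hrz]
    simp
  have hskew := skew H hQ (p := p) hD ha (by omega)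
  have h5 : pcv D (Bm (tX C) (aX a)) p * (Qb (tX C) (aX a) * (r.map (ι C))ᵀ) = 0 := by
    have h6 : (pcv D (Bm (tX C) (aX a)) p)ᵀ * (r.map (ι C))ᵀ = 0 := by
      rw [← Matrix.transpose_mul, hrψ, Matrix.transpose_zero]
    rw [← mul_assoc, eq_neg_of_add_eq_zero_left hskew, neg_mul, mul_assoc, h6, mul_zero, neg_zero]
  have hrdeg : ∀ i j, (r i j).natDegree ≤ g := by
    intro i j
    rw [hr, Matrix.sub_apply]
    refine (natDegree_sub_le _ _).trans (max_le (hd' i j) ?_)
    rw [Matrix.diagonal_apply]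
    split_ifs <;> simp
  have h7 : Qp a * rᵀ = 0 := by
    have h8 : ∀ j, (fun i => (Qp a * rᵀ) i j) = 0 := by
      intro j
      refine hLI C p D hD (2 * g) a ha (by omega) (g + 1) _ (fun i => ?_) (by omega) ?_
      · rw [Matrix.mul_apply]
        refine natDegree_sum_le_of_forall_le _ _ fun k _ => ?_
        refine natDegree_mul_le.trans ?_
        have h9 := Qp_deg a i k
        have h10 := hrdeg j k
        rw [Matrix.transpose_apply]
        omega
      · ext i
        have h11 := congrFun (congrFun h5 i) j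
        rw [← Qp_map, ← Matrix.transpose_map, ← Matrix.map_mul] at h11
        exact h11
    ext1 i j
    exact congrFun (h8 j) i
  have h12 : Qb (tX C) (aX a) * (r.map (ι C))ᵀ = 0 := by
    rw [← Qp_map, ← Matrix.transpose_map, ← Matrix.map_mul, h7]
    ext i j
    simp
  have h13 : (r.map (ι C))ᵀ = 0 := by
    have hdet := Qb_det hEQ hQx (p := p) ha hg (by omega) (by omega)
    have h14 := congrArg (fun M => (Qb (tX C) (aX a))⁻¹ * M) h12
    simp only [mul_zero] at h14
    rw [← mul_assoc, Matrix.nonsing_inv_mul _ (isUnit_iff_ne_zero.2 hdet), one_mul] at h14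
    exact h14
  have h15 : r = 0 := by
    apply map_eq_zero'
    rw [← Matrix.transpose_transpose (r.map (ι C)), h13, Matrix.transpose_zero]
  exact sub_eq_zero.1 h15

/-- Primitives. -/
theorem exists_prim {p : ℕ} [Fact p.Prime] [CharP C p] (c : C[X]) (m : ℕ) (hc : c.natDegree ≤ m)
    (hp : m + 1 < p) : ∃ b : C[X], derivative b = c ∧ b.natDegree ≤ m + 1 := by
  refine ⟨∑ k ∈ range (m + 1), monomial (k + 1) (c.coeff k / ((k : C) + 1)), ?_, ?_⟩
  · rw [derivative_sum]
    conv_rhs => rw [as_sum_range' c (m + 1) (by omega)]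
    refine Finset.sum_congr rfl fun k hk => ?_
    have h1 : ((k : C) + 1) ≠ 0 := by
      have := cast_ne (C := C) (p := p) (k := k + 1) (by omega)
        (by have := Finset.mem_range.1 hk; omega)
      push_cast at this
      exact this
    rw [derivative_monomial, Nat.add_sub_cancel]
    push_cast
    rw [div_mul_cancel₀ _ h1]
  · refine natDegree_sum_le_of_forall_le _ _ fun k hk => ?_
    have := Finset.mem_range.1 hk
    exact (natDegree_monomial_le _).trans (by omega)

theorem Tm_diag {D : Der (KX C)} (hD : IsDer D) {n : ℕ}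
    (B : Matrix (Fin n) (Fin n) (KX C)) (b : C[X]) :
    Tm D B ((Matrix.diagonal fun _ => b : Matrix (Fin n) (Fin n) C[X]).map (ι C)) =
      (Matrix.diagonal fun _ => derivative b : Matrix (Fin n) (Fin n) C[X]).map (ι C) := by
  rw [Tm_eq]
  have h1 : (Matrix.diagonal fun _ => b : Matrix (Fin n) (Fin n) C[X]).map (ι C) =
      ι C b • 1 := by
    ext i j
    simp only [Matrix.map_apply, Matrix.diagonal_apply, Matrix.smul_apply, Matrix.one_apply,
      smul_eq_mul]
    split_ifs <;> simp
  rw [h1]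
  rw [mul_smul_comm, smul_mul_assoc, mul_one, one_mul, sub_self, add_zero]
  ext i j
  simp only [Matrix.map_apply, Matrix.diagonal_apply, Matrix.smul_apply, Matrix.one_apply,
    smul_eq_mul]
  split_ifs
  · rw [mul_one, hD]
  · simp

theorem comm (H : Hyps) (hRank : S_Rank) (hQ : S_QbHor) (hEQ : S_EQ) (hQx : S_QxDet) :
    S_Comm := by
  intro C _ p _ _ D hD g a ha hg m
  induction m with
  | zero =>
    intro x hdeg hp hx
    have h1 : (Tm D (Bm (tX C) (aX a)))^[p] (x.map (ι C)) = 0 := by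
      rw [Tm_iter H.pcvT H.pcvD H.frac (p := p) hD, hx, sub_self]
    have h2 := mat_zero H hD ha (by omega) x h1 hdeg
    obtain ⟨c, hc⟩ := hor_scalar H hRank hQ hEQ hQx hD ha hg x h2 0 hdeg (by omega) (by omega)
    exact ⟨_, hc⟩
  | succ m ih =>
    intro x hdeg hp hx
    have h1 : (Tm D (Bm (tX C) (aX a)))^[p] (x.map (ι C)) = 0 := by
      rw [Tm_iter H.pcvT H.pcvD H.frac (p := p) hD, hx, sub_self]
    obtain ⟨w, hw1, hw2, -⟩ := mat_succ H hD ha (by omega) x h1 hdeg
    have hw3 : (Tm D (Bm (tX C) (aX a)))^[p] (w.map (ι C)) = 0 := by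
      rw [← hw1, ← Function.iterate_succ_apply, Function.iterate_succ_apply', h1, Tm_zero]
    rw [Tm_iter H.pcvT H.pcvD H.frac (p := p) hD, sub_eq_zero] at hw3
    obtain ⟨c, hc⟩ := ih w hw2 (by omega) hw3.symm
    have hcdeg : c.natDegree ≤ m := by
      have h3 := hw2 ⟨0, by omega⟩ ⟨0, by omega⟩
      rw [hc, Matrix.diagonal_apply_eq] at h3
      exact h3
    obtain ⟨b, hb1, hb2⟩ := exists_prim (p := p) c m hcdeg (by omega)
    set y : Matrix (Fin (2 * g)) (Fin (2 * g)) C[X] := x - Matrix.diagonal fun _ => b with hydef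
    have hy : Tm D (Bm (tX C) (aX a)) (y.map (ι C)) = 0 := by
      have h4 : y.map (ι C) = x.map (ι C) -
          (Matrix.diagonal fun _ => b : Matrix (Fin (2 * g)) (Fin (2 * g)) C[X]).map (ι C) := by
        rw [hydef]
        ext i j
        rw [Matrix.map_apply, Matrix.sub_apply, Matrix.sub_apply, map_sub]
        rfl
      rw [h4, Tm_sub, Tm_diag hD, hb1, hw1, hc, sub_self]
    have hydeg : ∀ i j, (y i j).natDegree ≤ m + 1 := by
      intro i j
      rw [hydef, Matrix.sub_apply]
      refine (natDegree_sub_le _ _).trans (max_le (hdeg i j) ?_)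
      rw [Matrix.diagonal_apply]
      split_ifs
      · exact hb2
      · simp
    obtain ⟨e, he⟩ := hor_scalar H hRank hQ hEQ hQx hD ha hg y hy (m + 1) hydeg (by omega)
      (by omega)
    refine ⟨b + Polynomial.C e, ?_⟩
    have h5 : x = y + Matrix.diagonal fun _ => b := by
      rw [hydef, sub_add_cancel]
    rw [h5, he, Matrix.diagonal_add]
    congr 1
    ext1 i
    exact add_comm _ _

end Pool.Agent.Helper34.BM
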