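import Pool.Agent.Helper62.BM.Stm

/-!
# Fuchsian connections over `C(X)`: poles, polynomial solutions
-/

set_option autoImplicit false

open Polynomial Matrix Finset
open Pool.Agent.Helper62.BM

namespace Pool.Agent.Helper34.BM

variable {C : Type} [Field C]

/-- A derivation of a field from its underlying function (the instances on `Derivation ℤ F F` are
those of the field; for `F = KX C` Lean finds another `ℤ`-algebra structure by default). -/
def mkD {F : Type} [Field F] (f : F → F) (h1 : ∀ x y, f (x + y) = f x + f y)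
    (h2 : ∀ x y, f (x * y) = x * f y + y * f x) : Derivation ℤ F F :=
  Derivation.mk' (AddMonoidHom.toIntLinearMap (AddMonoidHom.mk' f h1)) h2

theorem mkD_coe {F : Type} [Field F] (f : F → F) (h1 : ∀ x y, f (x + y) = f x + f y)
    (h2 : ∀ x y, f (x * y) = x * f y + y * f x) : ⇑(mkD f h1 h2) = f := rfl

theorem D_add (D : Der (KX C)) (x y : KX C) : D (x + y) = D x + D y :=
  map_add D x y

theorem D_mul (D : Der (KX C)) (x y : KX C) : D (x * y) = x * D y + y * D x :=
  D.leibniz x y

theorem ι_inj : Function.Injective (ι C) := IsFractionRing.injective C[X] (KX C)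

theorem ι_eq_zero {q : C[X]} : ι C q = 0 ↔ q = 0 := by
  rw [← map_zero (ι C)]
  exact ι_inj.eq_iff

theorem der_unique {D D' : Der (KX C)} (h : IsDer D) (h' : IsDer D') : D = D' := by
  ext c
  obtain ⟨a, b, hb, rfl⟩ := IsFractionRing.div_surjective (A := C[X]) c
  have hb0 : (algebraMap C[X] (KX C)) b ≠ 0 := by
    simpa using nonZeroDivisors.ne_zero hb
  have key : ∀ E : Der (KX C), IsDer E →
      E (algebraMap C[X] (KX C) a / algebraMap C[X] (KX C) b) =
        (ι C (derivative a) - (algebraMap C[X] (KX C) a / algebraMap C[X] (KX C) b) *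
          ι C (derivative b)) / ι C b := by
    intro E hE
    have h1 : E (ι C a) = ι C (derivative a) := hE a
    have h2 : E (ι C b) = ι C (derivative b) := hE b
    have h3 : (algebraMap C[X] (KX C) a) =
      (algebraMap C[X] (KX C) a / algebraMap C[X] (KX C) b) * algebraMap C[X] (KX C) b := by
      field_simp
    have h4 := h1
    rw [ι, h3, Derivation.leibniz] at h4
    rw [eq_div_iff hb0]
    simp only [smul_eq_mul] at h4
    have h5 : E (algebraMap C[X] (KX C) b) = ι C (derivative b) := h2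
    rw [h5] at h4
    linear_combination h4
  rw [key D h, key D' h']

theorem dp (hF : S_Frac) {p : ℕ} [Fact p.Prime] [CharP C p] {D : Der (KX C)}
    (hD : IsDer D) (c : KX C) : (⇑D)^[p] c = 0 := by
  obtain ⟨D0, h0, h1⟩ := hF C
  rw [der_unique hD h0]
  exact h1 p c

/-- The Fuchsian connection matrix `∑ ρ_l / (X - a_l)`. -/
noncomputable def FB {n : ℕ} (a : Fin n → C) {N : Type} (ρ : Fin n → Matrix N N C) :
    Matrix N N (KX C) :=
  Matrix.of fun i j => ∑ l, (tX C - aX a l)⁻¹ * ι C (Polynomial.C (ρ l i j))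

theorem t_sub_a_ne {n : ℕ} (a : Fin n → C) (l : Fin n) : tX C - aX a l ≠ 0 := by
  have : tX C - aX a l = ι C (X - Polynomial.C (a l)) := by simp [tX, aX]
  rw [this, Ne, ι_eq_zero]
  exact X_sub_C_ne_zero _

theorem t_sub_a {n : ℕ} (a : Fin n → C) (l : Fin n) :
    tX C - aX a l = ι C (X - Polynomial.C (a l)) := by simp [tX, aX]

theorem bp_eval_self {n : ℕ} {a : Fin n → C} (ha : Function.Injective a) (l : Fin n) :
    (bp a l).eval (a l) ≠ 0 := by
  unfold bp
  rw [eval_prod, Finset.prod_ne_zero_iff]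
  intro m hm
  simp only [eval_sub, eval_X, eval_C]
  exact sub_ne_zero.2 fun h => (Finset.ne_of_mem_erase hm) (ha h).symm

theorem bp_eval_ne {n : ℕ} {a : Fin n → C} {l k : Fin n} (h : k ≠ l) :
    (bp a k).eval (a l) = 0 := by
  unfold bp
  rw [eval_prod]
  exact Finset.prod_eq_zero (Finset.mem_erase.2 ⟨h.symm, Finset.mem_univ l⟩) (by simp)

theorem bp_mul {n : ℕ} (a : Fin n → C) (l : Fin n) :
    (X - Polynomial.C (a l)) * bp a l = ∏ m, (X - Polynomial.C (a m)) := by
  unfold bp
  exact Finset.mul_prod_erase Finset.univ (fun m => X - Polynomial.C (a m)) (Finset.mem_univ l)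

/-- The residues of a solution of `∇ ^ p v = 0`. -/
theorem res_zero (hR : S_Res) {p : ℕ} [Fact p.Prime] [CharP C p]
    {D : Der (KX C)} (hD : IsDer D) {n : ℕ} {a : Fin n → C}
    (ha : Function.Injective a) {N : Type} [Fintype N] [DecidableEq N]
    (ρ : Fin n → Matrix N N C) (hρ : ∀ l, ρ l ^ 3 = 0) (hp : 3 ≤ p) (v : N → C[X])
    (hv : (nab D (FB a ρ))^[p] (fun i => ι C (v i)) = 0) (l : Fin n) :
    ρ l *ᵥ (fun i => (v i).eval (a l)) = 0 := by
  have h := hR C p D hD N (FB a ρ)
    (Matrix.of fun i j => ∑ k, bp a k * Polynomial.C (ρ k i j)) (bp a l) (a l)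
    (bp_eval_self ha l) (by
      intro i j
      simp only [FB, Matrix.of_apply]
      rw [map_sum, Finset.mul_sum, bp_mul]
      refine Finset.sum_congr rfl fun k _ => ?_
      rw [← bp_mul a k, map_mul, map_mul, ← t_sub_a]
      have := t_sub_a_ne a k
      field_simp) v hv
  have h2 : ((eval (a l) (bp a l))⁻¹ • (Matrix.of fun i j => ∑ k, bp a k * Polynomial.C (ρ k i j)).map
      (Polynomial.eval (a l))) = ρ l := by
    ext i j
    simp only [Matrix.smul_apply, Matrix.map_apply, Matrix.of_apply, smul_eq_mul]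
    rw [eval_finsetSum, Finset.sum_eq_single l]
    · rw [eval_mul, eval_C, ← mul_assoc, inv_mul_cancel₀ (bp_eval_self ha l), one_mul]
    · intro k _ hk
      rw [eval_mul, bp_eval_ne hk, zero_mul]
    · simp
  rw [h2] at h
  have h3 : ρ l ^ p = 0 := by
    rw [← Nat.sub_add_cancel hp, pow_add, hρ l, mul_zero]
  rw [h3, Matrix.zero_mulVec] at h
  exact h.symm

/-- If the residues of `v` vanish then `∇ v` is polynomial; degree zero. -/
theorem nab_poly_zero {D : Der (KX C)} (hD : IsDer D) {n : ℕ} {a : Fin n → C}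
    {N : Type} [Fintype N] [DecidableEq N]
    (ρ : Fin n → Matrix N N C) (v : N → C[X]) (hv : ∀ l, ρ l *ᵥ (fun i => (v i).eval (a l)) = 0)
    (hd : ∀ i, (v i).natDegree ≤ 0) : nab D (FB a ρ) (fun i => ι C (v i)) = 0 := by
  have hc : ∀ i, v i = Polynomial.C ((v i).coeff 0) := fun i =>
    eq_C_of_natDegree_le_zero (hd i)
  ext i
  simp only [nab, Pi.zero_apply]
  have h1 : D (ι C (v i)) = 0 := by
    rw [hD, hc i]; simp
  rw [h1, zero_add]
  simp only [Matrix.mulVec, dotProduct, FB, Matrix.of_apply, Finset.sum_mul]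
  rw [Finset.sum_comm]
  refine Finset.sum_eq_zero fun l _ => ?_
  have h2 := congrFun (hv l) i
  simp only [Matrix.mulVec, dotProduct, Pi.zero_apply] at h2
  have h3 : ∑ j, ρ l i j * (v j).coeff 0 = 0 := by
    rw [← h2]
    refine Finset.sum_congr rfl fun j _ => ?_
    conv_rhs => rw [hc j, eval_C]
  have h4 : ∀ j, (tX C - aX a l)⁻¹ * ι C (Polynomial.C (ρ l i j)) * ι C (v j) =
      (tX C - aX a l)⁻¹ * ι C (Polynomial.C (ρ l i j * (v j).coeff 0)) := by
    intro j
    conv_lhs => rw [hc j]
    rw [Polynomial.C_mul, map_mul, mul_assoc]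
  rw [Finset.sum_congr rfl fun j _ => h4 j, ← Finset.mul_sum, ← map_sum, ← map_sum, h3]
  simp

/-- If the residues of `v` vanish then `∇ v` is polynomial. -/
theorem nab_poly {D : Der (KX C)} (hD : IsDer D) {n : ℕ} {a : Fin n → C}
    {N : Type} [Fintype N] [DecidableEq N]
    (ρ : Fin n → Matrix N N C) (v : N → C[X]) (hv : ∀ l, ρ l *ᵥ (fun i => (v i).eval (a l)) = 0)
    {m : ℕ} (hd : ∀ i, (v i).natDegree ≤ m + 1) :
    ∃ w : N → C[X], nab D (FB a ρ) (fun i => ι C (v i)) = (fun i => ι C (w i)) ∧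
      (∀ i, (w i).natDegree ≤ m) ∧
      ∀ i, (w i).coeff m = ((m : C) + 1) * (v i).coeff (m + 1) +
        ∑ l, (ρ l *ᵥ fun j => (v j).coeff (m + 1)) i := by
  classical
  set u : Fin n → N → C[X] := fun l i => ∑ j, Polynomial.C (ρ l i j) * v j with hu
  have hroot : ∀ l i, (u l i).IsRoot (a l) := by
    intro l i
    have h2 := congrFun (hv l) i
    simp only [Matrix.mulVec, dotProduct, Pi.zero_apply] at h2
    rw [IsRoot.def, hu]
    simp only [eval_finsetSum, eval_mul, eval_C]
    exact h2
  have hudeg : ∀ l i, (u l i).natDegree ≤ m + 1 := by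
    intro l i
    refine natDegree_sum_le_of_forall_le _ _ fun j _ => ?_
    exact (natDegree_C_mul_le _ _).trans (hd j)
  set q : Fin n → N → C[X] := fun l i => u l i /ₘ (X - Polynomial.C (a l)) with hq
  have hq1 : ∀ l i, (X - Polynomial.C (a l)) * q l i = u l i := fun l i =>
    mul_divByMonic_eq_iff_isRoot.2 (hroot l i)
  have hqdeg : ∀ l i, (q l i).natDegree ≤ m := by
    intro l i
    rw [hq]
    simp only
    rw [natDegree_divByMonic _ (monic_X_sub_C _), natDegree_X_sub_C]
    have := hudeg l i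
    omega
  have hqc : ∀ l i, (q l i).coeff m = (u l i).coeff (m + 1) := by
    intro l i
    rw [← hq1 l i, mul_comm, coeff_mul_X_sub_C]
    rw [coeff_eq_zero_of_natDegree_lt (lt_of_le_of_lt (hqdeg l i) (Nat.lt_succ_self m))]
    ring
  refine ⟨fun i => derivative (v i) + ∑ l, q l i, ?_, ?_, ?_⟩
  · ext i
    simp only [nab]
    rw [hD, map_add, map_sum]
    congr 1
    simp only [Matrix.mulVec, dotProduct, FB, Matrix.of_apply, Finset.sum_mul]
    rw [Finset.sum_comm]
    refine Finset.sum_congr rfl fun l _ => ?_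
    have h5 : ι C (u l i) = (tX C - aX a l) * ι C (q l i) := by
      rw [← hq1 l i, map_mul, t_sub_a]
    have h6 : ι C (q l i) = (tX C - aX a l)⁻¹ * ι C (u l i) := by
      rw [h5, inv_mul_cancel_left₀ (t_sub_a_ne a l)]
    rw [h6, hu]
    simp only [map_sum, map_mul, Finset.mul_sum]
    refine Finset.sum_congr rfl fun j _ => ?_
    rw [mul_assoc]
  · intro i
    refine (natDegree_add_le _ _).trans (max_le ?_ ?_)
    · exact (natDegree_derivative_le _).trans (by have := hd i; omega)
    · exact natDegree_sum_le_of_forall_le _ _ fun l _ => hqdeg l i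
  · intro i
    rw [coeff_add, coeff_derivative, finsetSum_coeff]
    have : ∀ l, (q l i).coeff m = (ρ l *ᵥ fun j => (v j).coeff (m + 1)) i := by
      intro l
      rw [hqc, hu]
      simp [Matrix.mulVec, dotProduct]
    rw [Finset.sum_congr rfl fun l _ => this l]
    ring

theorem pcv_nab (hPcv : S_Pcv) (hFrac : S_Frac) {p : ℕ} [Fact p.Prime] [CharP C p]
    {D : Der (KX C)} (hD : IsDer D) {n : Type} [Fintype n] [DecidableEq n]
    (B : Matrix n n (KX C)) (v : n → KX C) : (nab D B)^[p] v = pcv D B p *ᵥ v :=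
  hPcv (KX C) p (mkD D (D_add D) (D_mul D)) (fun c => dp (C := C) hFrac (p := p) hD c) n B v

end Pool.Agent.Helper34.BM
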