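import Pool.Agent.Helper34.BM.Tm

/-!
# Horizontal polynomial matrices
-/

set_option autoImplicit false

open Polynomial Matrix Finset
open Pool.Agent.Helper62.BM

namespace Pool.Agent.Helper34.BM

variable {C : Type} [Field C]

theorem AD_NR_cube {n : ℕ} (l : Fin n) : AD (NR C l) ^ 3 = 0 := AD_cube _ (NR_mul l)

/-- The hypotheses from the other packages. -/
structure Hyps : Prop where
  pcv : S_Pcv
  pcvT : S_PcvT
  pcvD : S_PcvD
  frac : S_Frac
  res : S_Res

/-- residues of matrices commuting with the `p`-curvature -/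
theorem mat_res (H : Hyps) {p : ℕ} [Fact p.Prime] [CharP C p]
    {D : Der (KX C)} (hD : IsDer D) {n : ℕ} {a : Fin n → C}
    (ha : Function.Injective a) (hp : 3 ≤ p) (x : Matrix (Fin n) (Fin n) C[X])
    (hx : (Tm D (Bm (tX C) (aX a)))^[p] (x.map (ι C)) = 0) (l : Fin n) :
    AD (NR C l) *ᵥ (fun s : Fin n × Fin n => (x s.1 s.2).eval (a l)) = 0 := by
  refine res_zero H.res hD ha (fun l => AD (NR C l)) (fun l => AD_NR_cube l) hp
    (fun s : Fin n × Fin n => x s.1 s.2) ?_ l
  have h := nab_unc_iter (D := D) a p (x.map (ι C))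
  rw [hx] at h
  exact h

theorem sum_AD {n : ℕ} (Z : Matrix (Fin n) (Fin n) C) (i j : Fin n) :
    ∑ l, (AD (NR C l) *ᵥ unc Z) (i, j) = 2⁻¹ * (∑ k, Z k j - ∑ k, Z i k) := by
  have h1 : ∀ l, (AD (NR C l) *ᵥ unc Z) (i, j) =
      (NR C l *ᵥ fun k => Z k j) i - (Z * NR C l) i j := by
    intro l
    rw [AD_mulVec]
    rfl
  rw [Finset.sum_congr rfl fun l _ => h1 l, Finset.sum_sub_distrib, sum_NR]
  have h2 : ∀ l, (Z * NR C l) i j = if l = j then 2⁻¹ * (∑ k, Z i k - Z i j) else 0 := by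
    intro l
    simp only [Matrix.mul_apply, NR, Matrix.of_apply]
    by_cases h : l = j
    · subst h
      simp only [true_and, if_true, mul_ite, mul_zero]
      rw [← Finset.sum_filter, Finset.filter_ne', ← Finset.sum_mul, mul_comm]
      congr 1
      rw [eq_sub_iff_add_eq, Finset.sum_erase_add _ _ (Finset.mem_univ l)]
    · rw [if_neg h]
      refine Finset.sum_eq_zero fun k _ => ?_
      rw [if_neg (fun h' => h h'.1.symm), mul_zero]
  rw [Finset.sum_congr rfl fun l _ => h2 l, Finset.sum_ite_eq' Finset.univ j,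
    if_pos (Finset.mem_univ j)]
  ring

/-- Degree zero. -/
theorem mat_zero (H : Hyps) {p : ℕ} [Fact p.Prime] [CharP C p]
    {D : Der (KX C)} (hD : IsDer D) {n : ℕ} {a : Fin n → C}
    (ha : Function.Injective a) (hp : 3 ≤ p) (x : Matrix (Fin n) (Fin n) C[X])
    (hx : (Tm D (Bm (tX C) (aX a)))^[p] (x.map (ι C)) = 0)
    (hd : ∀ i j, (x i j).natDegree ≤ 0) : Tm D (Bm (tX C) (aX a)) (x.map (ι C)) = 0 := by
  have h := nab_poly_zero hD (a := a) (fun l => AD (NR C l))
    (fun s : Fin n × Fin n => x s.1 s.2) (fun l => mat_res H hD ha hp x hx l)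
    (fun s => hd s.1 s.2)
  have h2 := nab_unc (D := D) a (x.map (ι C))
  ext i j
  have h3 := congrFun h2 (i, j)
  have h4 := congrFun h (i, j)
  exact h3.symm.trans h4

/-- Positive degree. -/
theorem mat_succ (H : Hyps) {p : ℕ} [Fact p.Prime] [CharP C p]
    {D : Der (KX C)} (hD : IsDer D) {n : ℕ} {a : Fin n → C}
    (ha : Function.Injective a) (hp : 3 ≤ p) (x : Matrix (Fin n) (Fin n) C[X])
    (hx : (Tm D (Bm (tX C) (aX a)))^[p] (x.map (ι C)) = 0) {m : ℕ}
    (hd : ∀ i j, (x i j).natDegree ≤ m + 1) :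
    ∃ w : Matrix (Fin n) (Fin n) C[X], Tm D (Bm (tX C) (aX a)) (x.map (ι C)) = w.map (ι C) ∧
      (∀ i j, (w i j).natDegree ≤ m) ∧
      ∀ i j, (w i j).coeff m = ((m : C) + 1) * (x i j).coeff (m + 1) +
        2⁻¹ * (∑ k, (x k j).coeff (m + 1) - ∑ k, (x i k).coeff (m + 1)) := by
  obtain ⟨w, h1, h2, h3⟩ := nab_poly hD (a := a) (fun l => AD (NR C l))
    (fun s : Fin n × Fin n => x s.1 s.2) (fun l => mat_res H hD ha hp x hx l)
    (m := m) (fun s => hd s.1 s.2)
  refine ⟨Matrix.of fun i j => w (i, j), ?_, fun i j => h2 (i, j), fun i j => ?_⟩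
  · have h4 := nab_unc (D := D) a (x.map (ι C))
    ext i j
    exact (congrFun h4 (i, j)).symm.trans (congrFun h1 (i, j))
  · have h5 := h3 (i, j)
    rw [Matrix.of_apply, h5]
    congr 1
    exact sum_AD (Matrix.of fun i j => (x i j).coeff (m + 1)) i j

theorem map_eq_zero' {n : ℕ} {w : Matrix (Fin n) (Fin n) C[X]} (h : w.map (ι C) = 0) : w = 0 := by
  ext1 i j
  have := congrFun (congrFun h i) j
  exact ι_eq_zero.1 this

/-- A horizontal matrix of degree `m + 1 ≠ g` has degree at most `m`. -/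
theorem hor_drop (H : Hyps) {p : ℕ} [Fact p.Prime] [CharP C p]
    {D : Der (KX C)} (hD : IsDer D) {g : ℕ} {a : Fin (2 * g) → C}
    (ha : Function.Injective a) (y : Matrix (Fin (2 * g)) (Fin (2 * g)) C[X])
    (hy : Tm D (Bm (tX C) (aX a)) (y.map (ι C)) = 0) {m : ℕ}
    (hd : ∀ i j, (y i j).natDegree ≤ m + 1) (hp : 2 * (m + 1) + 2 * g < p) (hm : m + 1 ≠ g) :
    ∀ i j, (y i j).natDegree ≤ m := by
  have hp3 : 3 ≤ p := by omega
  have hyp : (Tm D (Bm (tX C) (aX a)))^[p] (y.map (ι C)) = 0 := by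
    obtain ⟨q, rfl⟩ : ∃ q, p = q + 1 := ⟨p - 1, by omega⟩
    rw [Function.iterate_succ_apply, hy, Tm_iter_zero]
  obtain ⟨w, h1, -, h3⟩ := mat_succ H hD ha hp3 y hyp hd
  rw [hy] at h1
  have hw : w = 0 := map_eq_zero' h1.symm
  have h2' : (2 : C) ≠ 0 := by
    have := cast_ne (C := C) (p := p) (k := 2) (by omega) (by omega)
    simpa using this
  set Z : Fin (2 * g) → Fin (2 * g) → C := fun i j => (y i j).coeff (m + 1) with hZ
  have hz : ∀ i j, 2 * ((m : C) + 1) * Z i j + (∑ k, Z k j - ∑ k, Z i k) = 0 := by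
    intro i j
    have h4 := h3 i j
    rw [hw] at h4
    simp only [Matrix.zero_apply, coeff_zero] at h4
    have h5 : (2 : C) * (((m : C) + 1) * (y i j).coeff (m + 1) +
        2⁻¹ * (∑ k, (y k j).coeff (m + 1) - ∑ k, (y i k).coeff (m + 1))) = 0 := by
      rw [← h4, mul_zero]
    rw [mul_add, ← mul_assoc 2 (2⁻¹), mul_inv_cancel₀ h2', one_mul, ← mul_assoc] at h5
    exact h5
  set τ : C := ∑ i, ∑ k, Z i k with hτ
  have hcol : ∀ j, (2 * ((m : C) + 1) + 2 * (g : C)) * ∑ k, Z k j = τ := by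
    intro j
    have h6 : ∑ i, (2 * ((m : C) + 1) * Z i j + (∑ k, Z k j - ∑ k, Z i k)) = 0 :=
      Finset.sum_eq_zero fun i _ => hz i j
    rw [Finset.sum_add_distrib, ← Finset.mul_sum, Finset.sum_sub_distrib, Finset.sum_const,
      Finset.card_univ, Fintype.card_fin, nsmul_eq_mul] at h6
    push_cast at h6
    linear_combination h6
  have hτ' : ∑ j, ∑ k, Z k j = τ := by rw [hτ, Finset.sum_comm]
  have hτ0 : τ = 0 := by
    have h7 : ∑ j, (2 * ((m : C) + 1) + 2 * (g : C)) * ∑ k, Z k j = ∑ j : Fin (2 * g), τ :=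
      Finset.sum_congr rfl fun j _ => hcol j
    rw [← Finset.mul_sum, hτ', Finset.sum_const, Finset.card_univ, Fintype.card_fin,
      nsmul_eq_mul] at h7
    push_cast at h7
    have h8 : (2 * ((m : C) + 1)) * τ = 0 := by linear_combination h7
    rcases mul_eq_zero.1 h8 with h | h
    · exfalso
      have h6 := cast_ne (C := C) (p := p) (k := 2 * (m + 1)) (by omega) (by omega)
      apply h6
      push_cast
      exact h
    · exact h
  have hcol0 : ∀ j, ∑ k, Z k j = 0 := by
    intro j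
    have h8 := hcol j
    rw [hτ0] at h8
    rcases mul_eq_zero.1 h8 with h | h
    · exfalso
      have h6 := cast_ne (C := C) (p := p) (k := 2 * (m + 1) + 2 * g) (by omega) (by omega)
      apply h6
      push_cast
      exact h
    · exact h
  have hrow : ∀ i, ∑ k, Z i k = 0 := by
    intro i
    have h6 : ∑ j, (2 * ((m : C) + 1) * Z i j + (∑ k, Z k j - ∑ k, Z i k)) = 0 :=
      Finset.sum_eq_zero fun j _ => hz i j
    rw [Finset.sum_add_distrib, ← Finset.mul_sum, Finset.sum_sub_distrib, hτ', hτ0,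
      Finset.sum_const, Finset.card_univ, Fintype.card_fin, nsmul_eq_mul] at h6
    push_cast at h6
    have h8 : (2 * (((m + 1 : ℕ) : C) - (g : C))) * ∑ k, Z i k = 0 := by
      push_cast
      linear_combination h6
    rcases mul_eq_zero.1 h8 with h | h
    · exfalso
      rcases mul_eq_zero.1 h with h' | h'
      · exact h2' h'
      · exact hm (CharP.natCast_injOn_Iio C p (show m + 1 < p by omega) (show g < p by omega)
          (sub_eq_zero.1 h'))
    · exact h
  have hZ0 : ∀ i j, Z i j = 0 := by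
    intro i j
    have h9 := hz i j
    rw [hcol0, hrow, sub_zero, add_zero] at h9
    rcases mul_eq_zero.1 h9 with h | h
    · exfalso
      have h6 := cast_ne (C := C) (p := p) (k := 2 * (m + 1)) (by omega) (by omega)
      apply h6
      push_cast
      exact h
    · exact h
  intro i j
  have h8 := hd i j
  by_contra h9
  have h10 : (y i j).natDegree = m + 1 := by omega
  have h11 : (y i j).leadingCoeff = 0 := by
    rw [leadingCoeff, h10]
    exact hZ0 i j
  rw [leadingCoeff_eq_zero] at h11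
  rw [h11] at h10
  simp at h10

theorem hor_deg (H : Hyps) {p : ℕ} [Fact p.Prime] [CharP C p]
    {D : Der (KX C)} (hD : IsDer D) {g : ℕ} {a : Fin (2 * g) → C}
    (ha : Function.Injective a) (y : Matrix (Fin (2 * g)) (Fin (2 * g)) C[X])
    (hy : Tm D (Bm (tX C) (aX a)) (y.map (ι C)) = 0) (m : ℕ)
    (hd : ∀ i j, (y i j).natDegree ≤ m) (hp : 2 * m + 2 * g < p) :
    ∀ i j, (y i j).natDegree ≤ g := by
  rcases le_or_gt m g with h | h
  · exact fun i j => (hd i j).trans h
  · obtain ⟨k, rfl⟩ : ∃ k, m = g + k := ⟨m - g, by omega⟩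
    clear h
    induction k with
    | zero => exact hd
    | succ k ih =>
      refine ih (hor_drop H hD ha y hy (m := g + k) hd ?_ ?_) (by omega)
      · omega
      · omega

theorem hor_pow (H : Hyps) {p : ℕ} [Fact p.Prime] [CharP C p]
    {D : Der (KX C)} (hD : IsDer D) {g : ℕ} {a : Fin (2 * g) → C}
    (ha : Function.Injective a) (y : Matrix (Fin (2 * g)) (Fin (2 * g)) C[X])
    (hy : Tm D (Bm (tX C) (aX a)) (y.map (ι C)) = 0)
    (hd : ∀ i j, (y i j).natDegree ≤ g) (hp : 6 * g < p) (k : ℕ) :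
    Tm D (Bm (tX C) (aX a)) ((y ^ k).map (ι C)) = 0 ∧ ∀ i j, ((y ^ k) i j).natDegree ≤ g := by
  induction k with
  | zero =>
    constructor
    · rw [pow_zero, Matrix.map_one _ (map_zero _) (map_one _), Tm_one]
    · intro i j
      rw [pow_zero, Matrix.one_apply]
      split_ifs <;> simp
  | succ k ih =>
    have h1 : Tm D (Bm (tX C) (aX a)) ((y ^ (k + 1)).map (ι C)) = 0 := by
      rw [pow_succ, Matrix.map_mul, Tm_mul, ih.1, hy]
      simp
    refine ⟨h1, hor_deg H hD ha _ h1 (2 * g) (fun i j => ?_) (by omega)⟩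
    rw [pow_succ, Matrix.mul_apply]
    refine natDegree_sum_le_of_forall_le _ _ fun l _ => ?_
    refine natDegree_mul_le.trans ?_
    have h2 := ih.2 i l
    have h3 := hd l j
    omega

end Pool.Agent.Helper34.BM
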