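import Pool.Agent.Helper34.BM.Fuchs

/-!
# Linear independence over polynomials of small degree: `S_LI`
-/

set_option autoImplicit false

open Polynomial Matrix Finset
open Pool.Agent.Helper62.BM

namespace Pool.Agent.Helper34.BM

variable {C : Type} [Field C]

/-- The residue of the connection at `a_l`. -/
def NR (C : Type) [Field C] {n : ℕ} (l : Fin n) : Matrix (Fin n) (Fin n) C :=
  Matrix.of fun i j => if j = l ∧ i ≠ l then 2⁻¹ else 0

theorem NR_mul {n : ℕ} (l : Fin n) : NR C l * NR C l = 0 := by
  ext i j
  simp only [Matrix.mul_apply, NR, Matrix.of_apply, Matrix.zero_apply]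
  refine Finset.sum_eq_zero fun k _ => ?_
  by_cases h : k = l
  · simp [h]
  · simp [h]

theorem Bm_eq {n : ℕ} (a : Fin n → C) : Bm (tX C) (aX a) = FB a (NR C) := by
  ext i j
  simp only [Bm, FB, NR, Matrix.of_apply]
  rw [Finset.sum_eq_single j]
  · by_cases h : i = j
    · simp [h]
    · have h2 : ι C (Polynomial.C (2⁻¹ : C)) = (2 : KX C)⁻¹ := by
        have h3 : ∀ c : C, ι C (Polynomial.C c) = ((ι C).comp Polynomial.C) c := fun c => rfl
        rw [h3, map_inv₀, map_ofNat]
      rw [if_neg h, if_pos ⟨rfl, h⟩, h2, mul_inv, mul_comm]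
  · intro l _ hl
    rw [if_neg (fun h => hl h.1.symm)]
    simp
  · simp

/-- `∑ ρ_l c` for the connection. -/
theorem sum_NR {n : ℕ} (c : Fin n → C) (i : Fin n) :
    ∑ l, (NR C l *ᵥ c) i = 2⁻¹ * (∑ j, c j - c i) := by
  have : ∀ l, (NR C l *ᵥ c) i = if i ≠ l then 2⁻¹ * c l else 0 := by
    intro l
    simp only [Matrix.mulVec, dotProduct, NR, Matrix.of_apply]
    rw [Finset.sum_eq_single l]
    · by_cases h : i = l <;> simp [h]
    · intro b _ hb
      simp [hb]
    · simp
  rw [Finset.sum_congr rfl fun l _ => this l, ← Finset.sum_filter]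
  rw [Finset.filter_ne, ← Finset.mul_sum]
  congr 1
  rw [eq_sub_iff_add_eq, Finset.sum_erase_add _ _ (Finset.mem_univ i)]

theorem nab_iter_zero {D : Der (KX C)} {N : Type} [Fintype N]
    (B : Matrix N N (KX C)) (k : ℕ) : (nab D B)^[k] 0 = 0 := by
  have h0 : nab D B 0 = 0 := by
    ext i
    simp [nab]
  induction k with
  | zero => rfl
  | succ k ih => rw [Function.iterate_succ_apply, h0, ih]

theorem cast_ne {p : ℕ} [Fact p.Prime] [CharP C p] {k : ℕ} (h0 : 0 < k) (h1 : k < p) :
    (k : C) ≠ 0 := by
  rw [Ne, CharP.cast_eq_zero_iff C p]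
  exact fun h => absurd (Nat.le_of_dvd h0 h) (by omega)

theorem li (hPcv : S_Pcv) (hRes : S_Res) (hFrac : S_Frac) : S_LI := by
  intro C _ p _ _ D hD n a ha hn m
  induction m with
  | zero =>
    intro v hdeg hp hv
    have h1 : (nab D (FB a (NR C)))^[p] (fun i => ι C (v i)) = 0 := by
      rw [← Bm_eq, pcv_nab hPcv hFrac hD, hv]
    have hres := fun l => res_zero hRes hD ha (NR C)
      (fun l => by rw [pow_succ, pow_two, NR_mul, zero_mul]) (by omega) v h1 l
    ext1 l
    have : Nontrivial (Fin n) := Fin.nontrivial_iff_two_le.2 hn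
    obtain ⟨i, hi⟩ := exists_ne l
    have h2 := congrFun (hres l) i
    have h2' : (2 : C) ≠ 0 := by
      have := cast_ne (C := C) (p := p) (k := 2) (by omega) (by omega)
      simpa using this
    simp only [Matrix.mulVec, dotProduct, NR, Matrix.of_apply, Pi.zero_apply] at h2
    rw [Finset.sum_eq_single l] at h2
    · rw [if_pos ⟨rfl, hi⟩] at h2
      have h3 : (v l).eval (a l) = 0 := by
        rcases mul_eq_zero.1 h2 with h | h
        · exact absurd h (inv_ne_zero h2')
        · exact h
      rw [eq_C_of_natDegree_le_zero (hdeg l), eval_C] at h3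
      rw [eq_C_of_natDegree_le_zero (hdeg l), h3]
      simp
    · intro b _ hb
      simp [hb]
    · simp
  | succ m ih =>
    intro v hdeg hp hv
    have h1 : (nab D (FB a (NR C)))^[p] (fun i => ι C (v i)) = 0 := by
      rw [← Bm_eq, pcv_nab hPcv hFrac hD, hv]
    have hres := fun l => res_zero hRes hD ha (NR C)
      (fun l => by rw [pow_succ, pow_two, NR_mul, zero_mul]) (by omega) v h1 l
    obtain ⟨w, hw1, hw2, hw3⟩ := nab_poly hD (NR C) v hres hdeg
    have hw : w = 0 := by
      refine ih w hw2 (by omega) ?_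
      rw [← hw1, ← pcv_nab hPcv hFrac hD, Bm_eq, ← Function.iterate_succ_apply,
        Function.iterate_succ_apply', h1]
      ext i
      simp [nab]
    have h2' : (2 : C) ≠ 0 := by
      have := cast_ne (C := C) (p := p) (k := 2) (by omega) (by omega)
      simpa using this
    have hc : ∀ i, (2 * (m : C) + 1) * (v i).coeff (m + 1) +
        ∑ j, (v j).coeff (m + 1) = 0 := by
      intro i
      have h3 := hw3 i
      rw [hw, sum_NR] at h3
      simp only [Pi.zero_apply, coeff_zero] at h3
      have h4 : (2 : C) * (((m : C) + 1) * (v i).coeff (m + 1) +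
        2⁻¹ * (∑ j, (v j).coeff (m + 1) - (v i).coeff (m + 1))) = 0 := by rw [← h3, mul_zero]
      rw [mul_add, ← mul_assoc 2 (2⁻¹), mul_inv_cancel₀ h2'] at h4
      linear_combination h4
    have hs : ∑ j, (v j).coeff (m + 1) = 0 := by
      have h5 : ∑ i, ((2 * (m : C) + 1) * (v i).coeff (m + 1) +
        ∑ j, (v j).coeff (m + 1)) = 0 := Finset.sum_eq_zero fun i _ => hc i
      rw [Finset.sum_add_distrib, ← Finset.mul_sum, Finset.sum_const, Finset.card_univ,
        Fintype.card_fin, nsmul_eq_mul, ← add_mul] at h5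
      rcases mul_eq_zero.1 h5 with h | h
      · exfalso
        have h6 := cast_ne (C := C) (p := p) (k := 2 * m + 1 + n) (by omega) (by omega)
        apply h6
        push_cast
        exact h
      · exact h
    have hc' : ∀ i, (v i).coeff (m + 1) = 0 := by
      intro i
      have h7 := hc i
      rw [hs, add_zero] at h7
      rcases mul_eq_zero.1 h7 with h | h
      · exfalso
        have h6 := cast_ne (C := C) (p := p) (k := 2 * m + 1) (by omega) (by omega)
        apply h6
        push_cast
        exact h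
      · exact h
    refine ih v (fun i => ?_) (by omega) hv
    have h8 := hdeg i
    by_contra h9
    have h10 : (v i).natDegree = m + 1 := by omega
    have h11 : (v i).leadingCoeff = 0 := by
      rw [leadingCoeff, h10]
      exact hc' i
    rw [leadingCoeff_eq_zero] at h11
    rw [h11] at h10
    simp at h10

end Pool.Agent.Helper34.BM
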