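import Pool.Agent.Helper34.BM.LI

/-!
# The connection on matrices
-/

set_option autoImplicit false

open Polynomial Matrix Finset
open Pool.Agent.Helper62.BM

namespace Pool.Agent.Helper34.BM

variable {C : Type} [Field C]

/-- The connection `D M + B M - M B` on matrices. -/
def Tm {F : Type} [Field F] {n : Type} [Fintype n] (D : F → F) (B M : Matrix n n F) :
    Matrix n n F :=
  Matrix.of fun i j => D (M i j) + (B * M - M * B) i j

/-- The vector of the entries of a matrix. -/
def unc {R : Type} {n : Type} (M : Matrix n n R) : n × n → R := fun s => M s.1 s.2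

/-- The matrix of `ad`. -/
def AD {R : Type} [Ring R] {n : Type} [DecidableEq n] (N : Matrix n n R) :
    Matrix (n × n) (n × n) R :=
  Matrix.of fun s t => (if s.2 = t.2 then N s.1 t.1 else 0) - (if s.1 = t.1 then N t.2 s.2 else 0)

theorem AD_mulVec {R : Type} [CommRing R] {n : Type} [Fintype n] [DecidableEq n]
    (N M : Matrix n n R) : AD N *ᵥ unc M = unc (N * M - M * N) := by
  ext s
  simp only [Matrix.mulVec, dotProduct, AD, Matrix.of_apply, unc, Matrix.sub_apply,
    Matrix.mul_apply, sub_mul, Finset.sum_sub_distrib, ite_mul, zero_mul]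
  rw [Fintype.sum_prod_type, Fintype.sum_prod_type]
  congr 1
  · refine Finset.sum_congr rfl fun k _ => ?_
    simp
  · rw [Finset.sum_eq_single s.1]
    · simp [mul_comm]
    · intro b _ hb
      refine Finset.sum_eq_zero fun c _ => ?_
      rw [if_neg (fun h => hb h.symm)]
    · simp

theorem AD_cube {R : Type} [CommRing R] {n : Type} [Fintype n] [DecidableEq n]
    (N : Matrix n n R) (h : N * N = 0) : AD N ^ 3 = 0 := by
  apply (Matrix.toLin' (R := R)).injective
  rw [map_zero]
  apply LinearMap.ext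
  intro v
  rw [Matrix.toLin'_apply, LinearMap.zero_apply]
  have hv : v = unc (Matrix.of fun i j => v (i, j)) := by
    ext s
    rfl
  rw [hv]
  generalize (Matrix.of fun i j => v (i, j)) = M
  rw [pow_succ, pow_two, ← Matrix.mulVec_mulVec, ← Matrix.mulVec_mulVec, AD_mulVec, AD_mulVec,
    AD_mulVec]
  have h1 : N * (N * (N * M - M * N) - (N * M - M * N) * N) -
      (N * (N * M - M * N) - (N * M - M * N) * N) * N =
      (N * N) * N * M - 3 • ((N * N) * M * N) + 3 • (N * M * (N * N)) - M * (N * N) * N := by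
    noncomm_ring
  rw [h1, h]
  simp
  rfl

theorem AD_FB {n : ℕ} (a : Fin n → C) :
    FB a (fun l => AD (NR C l)) = AD (FB a (NR C)) := by
  ext s t
  simp only [FB, AD, Matrix.of_apply, map_sub, mul_sub, Finset.sum_sub_distrib]
  congr 1
  · split_ifs <;> simp
  · split_ifs <;> simp

theorem nab_unc {D : Der (KX C)} {n : ℕ} (a : Fin n → C)
    (M : Matrix (Fin n) (Fin n) (KX C)) :
    nab D (FB a (fun l => AD (NR C l))) (unc M) = unc (Tm D (Bm (tX C) (aX a)) M) := by
  ext s
  rw [AD_FB, ← Bm_eq]
  simp only [nab, AD_mulVec]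
  rfl

theorem nab_unc_iter {D : Der (KX C)} {n : ℕ} (a : Fin n → C) (k : ℕ)
    (M : Matrix (Fin n) (Fin n) (KX C)) :
    (nab D (FB a (fun l => AD (NR C l))))^[k] (unc M) =
      unc ((Tm D (Bm (tX C) (aX a)))^[k] M) := by
  induction k generalizing M with
  | zero => rfl
  | succ k ih => rw [Function.iterate_succ_apply, Function.iterate_succ_apply, nab_unc, ih]

theorem Tm_iter (hT : S_PcvT) (hPD : S_PcvD) (hFrac : S_Frac) {p : ℕ} [Fact p.Prime] [CharP C p]
    {D : Der (KX C)} (hD : IsDer D) {n : Type} [Fintype n] [DecidableEq n]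
    (B M : Matrix n n (KX C)) : (Tm D B)^[p] M = pcv D B p * M - M * pcv D B p := by
  have hdp := fun c => dp (C := C) hFrac (p := p) hD c
  have h1 := hT (KX C) p (mkD D (D_add D) (D_mul D)) hdp n n B (-Bᵀ) M
  have h2 := hPD (KX C) p (mkD D (D_add D) (D_mul D)) hdp n B
  rw [h2] at h1
  simp only [mkD_coe, Matrix.transpose_neg, Matrix.transpose_transpose, mul_neg,
    ← sub_eq_add_neg] at h1
  exact h1

theorem Tm_zero (D : Der (KX C)) {n : Type} [Fintype n]
    (B : Matrix n n (KX C)) : Tm D B 0 = 0 := by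
  ext i j
  simp [Tm]

theorem Tm_iter_zero (D : Der (KX C)) {n : Type} [Fintype n]
    (B : Matrix n n (KX C)) (k : ℕ) : (Tm D B)^[k] 0 = 0 := by
  induction k with
  | zero => rfl
  | succ k ih => rw [Function.iterate_succ_apply, Tm_zero, ih]

theorem Tm_eq (D : Der (KX C)) {n : Type} [Fintype n]
    (B M : Matrix n n (KX C)) : Tm D B M = M.map D + (B * M - M * B) := rfl

theorem map_mul_D (D : Der (KX C)) {n : Type} [Fintype n]
    (M N : Matrix n n (KX C)) : (M * N).map D = M.map D * N + M * N.map D := by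
  ext i j
  simp only [Matrix.map_apply, Matrix.mul_apply, Matrix.add_apply, map_sum, D_mul]
  rw [← Finset.sum_add_distrib]
  refine Finset.sum_congr rfl fun k _ => ?_
  ring

theorem Tm_mul (D : Der (KX C)) {n : Type} [Fintype n]
    (B M N : Matrix n n (KX C)) : Tm D B (M * N) = Tm D B M * N + M * Tm D B N := by
  rw [Tm_eq, Tm_eq, Tm_eq, map_mul_D]
  noncomm_ring

theorem Tm_sub (D : Der (KX C)) {n : Type} [Fintype n]
    (B M N : Matrix n n (KX C)) : Tm D B (M - N) = Tm D B M - Tm D B N := by
  rw [Tm_eq, Tm_eq, Tm_eq]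
  have : (M - N).map D = M.map D - N.map D := by
    ext i j
    simp
  rw [this]
  noncomm_ring

theorem Tm_one (D : Der (KX C)) {n : Type} [Fintype n] [DecidableEq n]
    (B : Matrix n n (KX C)) : Tm D B 1 = 0 := by
  rw [Tm_eq]
  have : (1 : Matrix n n (KX C)).map D = 0 := by
    ext i j
    simp only [Matrix.map_apply, Matrix.one_apply, Matrix.zero_apply]
    split_ifs <;> simp
  rw [this]
  simp

end Pool.Agent.Helper34.BM
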